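import Mathlib

/-! Definitions: singular homology with integer coefficients, integral homology fibre bundles,
the topology of complex projective space, closed complex submanifolds of `ℂ × ℙ(ℂ^ι)`,
submersivity of the first projection. -/


namespace Pool.Agent.Helper534.HB

universe u v w

section SingularHomology

/-- Singular `n`-simplices of a space `X`: continuous maps from the standard `n`-simplex. -/
abbrev Sing (X : Type u) [TopologicalSpace X] (n : ℕ) : Type u :=
  C(stdSimplex ℝ (Fin (n + 1)), X)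

/-- The `i`-th face of a singular `(n+1)`-simplex: precomposition with the affine inclusion of the
standard `n`-simplex as the face opposite to the `i`-th vertex. -/
noncomputable def sface {X : Type u} [TopologicalSpace X] (n : ℕ) (i : Fin (n + 2))
    (σ : Sing X (n + 1)) : Sing X n :=
  σ.comp ⟨stdSimplex.map i.succAbove, stdSimplex.continuous_map _⟩

/-- The boundary `∂ : C_{n+1}(X) → C_n(X)` of singular chains with integer coefficients,
`∂ σ = ∑ i, (-1)^i (i-th face of σ)`. -/
noncomputable def bdry (X : Type u) [TopologicalSpace X] (n : ℕ) :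
    (Sing X (n + 1) →₀ ℤ) →ₗ[ℤ] (Sing X n →₀ ℤ) :=
  ∑ i : Fin (n + 2), ((-1 : ℤ) ^ (i : ℕ)) • Finsupp.lmapDomain ℤ ℤ (sface n i)

/-- Singular cycles: all chains in degree `0`, the kernel of `∂` in positive degree. -/
noncomputable def Cyc (X : Type u) [TopologicalSpace X] : ∀ n : ℕ, Submodule ℤ (Sing X n →₀ ℤ)
  | 0 => ⊤
  | (n + 1) => LinearMap.ker (bdry X n)

/-- Singular boundaries: the range of `∂`. -/
noncomputable def Bdy (X : Type u) [TopologicalSpace X] (n : ℕ) : Submodule ℤ (Sing X n →₀ ℤ) :=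
  LinearMap.range (bdry X n)

/-- Integral singular homology `H_n(X; ℤ)`: cycles modulo boundaries. -/
abbrev Homology (X : Type u) [TopologicalSpace X] (n : ℕ) : Type u :=
  Cyc X n ⧸ (Bdy X n).submoduleOf (Cyc X n)

variable {X : Type u} [TopologicalSpace X] {Y : Type v} [TopologicalSpace Y]

/-- The chain map induced by a continuous map. -/
noncomputable def push (f : C(X, Y)) (n : ℕ) : (Sing X n →₀ ℤ) →ₗ[ℤ] (Sing Y n →₀ ℤ) :=
  Finsupp.lmapDomain ℤ ℤ (fun σ => f.comp σ)

theorem bdry_push (f : C(X, Y)) (n : ℕ) (z : Sing X (n + 1) →₀ ℤ) :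
    bdry Y n (push f (n + 1) z) = push f n (bdry X n z) := by
  have : (bdry Y n).comp (push f (n + 1)) = (push f n).comp (bdry X n) := by
    apply Finsupp.lhom_ext'
    intro σ
    apply LinearMap.ext_ring
    simp only [LinearMap.comp_apply, Finsupp.lsingle_apply, bdry, push, LinearMap.sum_apply,
      LinearMap.smul_apply, Finsupp.lmapDomain_apply, Finsupp.mapDomain_single, map_sum, map_smul]
    rfl
  exact LinearMap.congr_fun this z

theorem push_mem_Cyc (f : C(X, Y)) (n : ℕ) (z : Sing X n →₀ ℤ) (hz : z ∈ Cyc X n) :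
    push f n z ∈ Cyc Y n := by
  cases n with
  | zero => exact Submodule.mem_top
  | succ n =>
    change bdry Y n (push f (n + 1) z) = 0
    have h : bdry X n z = 0 := hz
    rw [bdry_push, h, map_zero]

theorem push_mem_Bdy (f : C(X, Y)) (n : ℕ) (z : Sing X n →₀ ℤ) (hz : z ∈ Bdy X n) :
    push f n z ∈ Bdy Y n := by
  obtain ⟨w, rfl⟩ := hz
  exact ⟨push f (n + 1) w, bdry_push f n w⟩

/-- The map `H_n(X; ℤ) → H_n(Y; ℤ)` induced by a continuous map. -/
noncomputable def Homology.map (f : C(X, Y)) (n : ℕ) : Homology X n →ₗ[ℤ] Homology Y n :=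
  Submodule.mapQ _ _ ((push f n).restrict (push_mem_Cyc f n)) (by
    intro z hz
    exact push_mem_Bdy f n z.1 hz)

/-- The inclusion of a subspace in a larger one, as a continuous map. -/
def inclusionMap {A B : Set X} (h : A ⊆ B) : C(A, B) :=
  ⟨Set.inclusion h, continuous_inclusion h⟩

/-- `f : X → Y` is a `ℤ`-homology fibre bundle: `Y` has an open cover such that, for every member
`U` of the cover and every `y ∈ U`, the inclusion `f⁻¹(y) → f⁻¹(U)` induces isomorphisms
`H_n(f⁻¹(y); ℤ) → H_n(f⁻¹(U); ℤ)` for all `n`. -/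
def IsZHomologyFiberBundle (f : X → Y) : Prop :=
  ∃ 𝒰 : Set (Set Y), (∀ U ∈ 𝒰, IsOpen U) ∧ (∀ y : Y, ∃ U ∈ 𝒰, y ∈ U) ∧
    ∀ U ∈ 𝒰, ∀ y : Y, ∀ hy : y ∈ U, ∀ n : ℕ, Function.Bijective
      (Homology.map (inclusionMap
        (Set.preimage_mono (Set.singleton_subset_iff.mpr hy) : f ⁻¹' {y} ⊆ f ⁻¹' U)) n)

end SingularHomology

end Pool.Agent.Helper534.HB
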