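import Pool.Agent.Helper534.HB.Defs
import Pool.Agent.Helper534.HB.Sc.Prism

/-! Homology equivalences, elementwise form. -/

namespace Pool.Agent.Helper534.HB

universe u v w

variable {X : Type u} [TopologicalSpace X] {Y : Type v} [TopologicalSpace Y]
  {Z : Type w} [TopologicalSpace Z]

/-- `f` induces isomorphisms on integral singular homology (elementwise form). -/
def HE (f : C(X, Y)) : Prop := ∀ n : ℕ,
  (∀ z ∈ Cyc X n, push f n z ∈ Bdy Y n → z ∈ Bdy X n) ∧
  (∀ b ∈ Cyc Y n, ∃ z ∈ Cyc X n, b - push f n z ∈ Bdy Y n)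

theorem bdry_eq (n : ℕ) : bdry X n = Sc.sbd X n := rfl

theorem push_eq (f : C(X, Y)) (n : ℕ) : push f n = Sc.cpush f n := rfl

theorem bdry_bdry (n : ℕ) (z : Sing X (n + 2) →₀ ℤ) : bdry X n (bdry X (n + 1) z) = 0 :=
  Sc.sbd_sbd n z

theorem push_push (f : C(X, Y)) (g : C(Y, Z)) (n : ℕ) (z : Sing X n →₀ ℤ) :
    push g n (push f n z) = push (g.comp f) n z := by
  simp only [push, Finsupp.lmapDomain_apply]
  rw [← Finsupp.mapDomain_comp]
  rfl

theorem push_id (n : ℕ) (z : Sing X n →₀ ℤ) : push (ContinuousMap.id X) n z = z := by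
  simp only [push, Finsupp.lmapDomain_apply]
  exact Finsupp.mapDomain_id

theorem push_single (f : C(X, Y)) (n : ℕ) (σ : Sing X n) (c : ℤ) :
    push f n (Finsupp.single σ c) = Finsupp.single (f.comp σ) c := by
  simp [push]

theorem Bdy_le_Cyc (n : ℕ) : Bdy X n ≤ Cyc X n := by
  rintro _ ⟨w, rfl⟩
  cases n with
  | zero => exact Submodule.mem_top
  | succ n => exact bdry_bdry n w

/-- Homotopy invariance: homotopic maps agree on cycles modulo boundaries. -/
theorem push_sub_mem_of_homotopy (H : C(X × unitInterval, Y)) (f g : C(X, Y))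
    (h0 : ∀ x, H (x, 0) = f x) (h1 : ∀ x, H (x, 1) = g x) (n : ℕ) (z : Sing X n →₀ ℤ)
    (hz : z ∈ Cyc X n) : push g n z - push f n z ∈ Bdy Y n := by
  have e0 : Sc.slice H 0 = f := ContinuousMap.ext h0
  have e1 : Sc.slice H 1 = g := ContinuousMap.ext h1
  cases n with
  | zero =>
    refine ⟨Sc.PD H 0 z, ?_⟩
    have := Sc.sbd_PD_zero H z
    rw [e0, e1] at this
    exact this
  | succ n =>
    refine ⟨Sc.PD H (n + 1) z, ?_⟩
    have := Sc.sbd_PD H n z
    have hz' : Sc.sbd X n z = 0 := hz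
    rw [e0, e1, hz', map_zero, add_zero] at this
    exact this

theorem HE_of_homotopyEquiv (f : C(X, Y)) (g : C(Y, X)) (H : C(X × unitInterval, X))
    (K : C(Y × unitInterval, Y)) (hH0 : ∀ x, H (x, 0) = x) (hH1 : ∀ x, H (x, 1) = g (f x))
    (hK0 : ∀ y, K (y, 0) = y) (hK1 : ∀ y, K (y, 1) = f (g y)) : HE f := by
  intro n
  constructor
  · intro z hz hfz
    have h1 := push_sub_mem_of_homotopy H (ContinuousMap.id X) (g.comp f) hH0 hH1 n z hz
    rw [push_id, ← push_push] at h1
    have h2 := push_mem_Bdy g n _ hfz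
    have h3 := (Bdy X n).sub_mem h2 h1
    rwa [sub_sub_cancel] at h3
  · intro b hb
    refine ⟨push g n b, push_mem_Cyc g n b hb, ?_⟩
    have h1 := push_sub_mem_of_homotopy K (ContinuousMap.id Y) (f.comp g) hK0 hK1 n b hb
    rw [push_id, ← push_push] at h1
    have h3 := (Bdy Y n).neg_mem h1
    rwa [neg_sub] at h3

theorem HE_of_homeo (e : X ≃ₜ Y) (f : C(X, Y)) (hf : ∀ x, f x = e x) : HE f := by
  refine HE_of_homotopyEquiv f ⟨e.symm, e.symm.continuous⟩ ⟨Prod.fst, continuous_fst⟩
    ⟨Prod.fst, continuous_fst⟩ (fun _ => rfl) (fun x => ?_) (fun _ => rfl) (fun y => ?_)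
  · simp [hf]
  · simp [hf]

theorem HE.comp {f : C(X, Y)} {g : C(Y, Z)} (hg : HE g) (hf : HE f) : HE (g.comp f) := by
  intro n
  constructor
  · intro z hz h
    rw [← push_push] at h
    exact (hf n).1 z hz ((hg n).1 _ (push_mem_Cyc f n z hz) h)
  · intro b hb
    obtain ⟨y, hy, h1⟩ := (hg n).2 b hb
    obtain ⟨z, hz, h2⟩ := (hf n).2 y hy
    refine ⟨z, hz, ?_⟩
    rw [← push_push]
    have h3 := push_mem_Bdy g n _ h2
    rw [map_sub] at h3
    have h4 := (Bdy Z n).add_mem h1 h3
    rwa [sub_add_sub_cancel] at h4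

/-- two out of three -/
theorem HE.of_comp_left {f : C(X, Y)} {g : C(Y, Z)} (hg : HE g) (h : HE (g.comp f)) : HE f := by
  intro n
  constructor
  · intro z hz hfz
    apply (h n).1 z hz
    rw [← push_push]
    exact push_mem_Bdy g n _ hfz
  · intro b hb
    obtain ⟨z, hz, h2⟩ := (h n).2 (push g n b) (push_mem_Cyc g n b hb)
    refine ⟨z, hz, ?_⟩
    apply (hg n).1 _ ((Cyc Y n).sub_mem hb (push_mem_Cyc f n z hz))
    rw [map_sub, push_push]
    exact h2

/-- two out of three -/
theorem HE.of_comp_right {f : C(X, Y)} {g : C(Y, Z)} (hf : HE f) (h : HE (g.comp f)) : HE g := by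
  intro n
  constructor
  · intro b hb hgb
    obtain ⟨z, hz, h1⟩ := (hf n).2 b hb
    have h2 : push (g.comp f) n z ∈ Bdy Z n := by
      have h3 := push_mem_Bdy g n _ h1
      rw [map_sub] at h3
      have h4 := (Bdy Z n).sub_mem hgb h3
      rw [sub_sub_cancel, push_push] at h4
      exact h4
    have h5 := push_mem_Bdy f n _ ((h n).1 z hz h2)
    have h6 := (Bdy Y n).add_mem h1 h5
    rwa [sub_add_cancel] at h6
  · intro b hb
    obtain ⟨z, hz, h1⟩ := (h n).2 b hb
    refine ⟨push f n z, push_mem_Cyc f n z hz, ?_⟩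
    rwa [push_push]

theorem HE_iff_bijective (f : C(X, Y)) :
    HE f ↔ ∀ n, Function.Bijective (Homology.map f n) := by
  constructor
  · intro h n
    constructor
    · rw [← LinearMap.ker_eq_bot, Submodule.eq_bot_iff]
      intro x hx
      obtain ⟨z, rfl⟩ := Submodule.Quotient.mk_surjective _ x
      have h1 : (Submodule.Quotient.mk ((push f n).restrict (push_mem_Cyc f n) z) :
          Homology Y n) = 0 := hx
      rw [Submodule.Quotient.mk_eq_zero] at h1 ⊢
      exact (h n).1 z.1 z.2 h1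
    · intro y
      obtain ⟨b, rfl⟩ := Submodule.Quotient.mk_surjective _ y
      obtain ⟨z, hz, h1⟩ := (h n).2 b.1 b.2
      refine ⟨Submodule.Quotient.mk ⟨z, hz⟩, ?_⟩
      change (Submodule.Quotient.mk ((push f n).restrict (push_mem_Cyc f n) ⟨z, hz⟩) :
          Homology Y n) = _
      symm
      rw [Submodule.Quotient.eq]
      exact h1
  · intro h n
    constructor
    · intro z hz h1
      have h2 : Homology.map f n (Submodule.Quotient.mk ⟨z, hz⟩) = 0 := by
        change (Submodule.Quotient.mk ((push f n).restrict (push_mem_Cyc f n) ⟨z, hz⟩) :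
          Homology Y n) = 0
        rw [Submodule.Quotient.mk_eq_zero]
        exact h1
      have h3 : (Submodule.Quotient.mk ⟨z, hz⟩ : Homology X n) = 0 :=
        (h n).1 (by rw [h2, map_zero])
      rw [Submodule.Quotient.mk_eq_zero] at h3
      exact h3
    · intro b hb
      obtain ⟨x, hx⟩ := (h n).2 (Submodule.Quotient.mk ⟨b, hb⟩)
      obtain ⟨z, rfl⟩ := Submodule.Quotient.mk_surjective _ x
      refine ⟨z.1, z.2, ?_⟩
      have h2 : (Submodule.Quotient.mk ((push f n).restrict (push_mem_Cyc f n) z) :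
          Homology Y n) = Submodule.Quotient.mk ⟨b, hb⟩ := hx
      have h3 := (Submodule.Quotient.eq _).mp h2.symm
      exact h3

end Pool.Agent.Helper534.HB
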