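import Pool.Agent.Helper534.HB.MVDefs

/-! Mayer-Vietoris in elementwise form. -/

namespace Pool.Agent.Helper534.HB

universe u v w

variable {X : Type u} [TopologicalSpace X]

/-- a chain supported on simplices in `U` comes from `U` -/
theorem mvx_lift (U : Set X) (n : ℕ) (z : Sing X n →₀ ℤ)
    (hz : z ∈ Finsupp.supported ℤ ℤ {σ : Sing X n | Set.range σ ⊆ U}) :
    ∃ u : Sing U n →₀ ℤ, push (sub U) n u = z := by
  have := Sc.supported_map {σ : Sing X n | Set.range σ ⊆ U} LinearMap.id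
    (LinearMap.range (push (sub U) n)) (by
      intro σ hσ
      refine ⟨Finsupp.single (⟨fun t => ⟨σ t, hσ ⟨t, rfl⟩⟩, by fun_prop⟩ : Sing U n) 1, ?_⟩
      rw [push_single]
      rfl) z hz
  exact this

theorem mvx_inj_sub (U : Set X) (n : ℕ) : Function.Injective (push (sub U) n) := by
  intro a b h
  simp only [push, Finsupp.lmapDomain_apply] at h
  refine Finsupp.mapDomain_injective ?_ h
  intro σ τ hst
  ext t
  have := DFunLike.congr_fun hst t
  exact this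

theorem mvx_support (U : Set X) (n : ℕ) (u : Sing U n →₀ ℤ) :
    push (sub U) n u ∈ Finsupp.supported ℤ ℤ {σ : Sing X n | Set.range σ ⊆ U} := by
  refine Sc.supported_map Set.univ (push (sub U) n) _ ?_ u (by simp)
  intro σ _
  rw [push_single]
  apply Sc.single_mem_supported'
  rintro _ ⟨t, rfl⟩
  exact (σ t).2

theorem mvx_push_inl (U V : Set X) (n : ℕ) (d : Sing ↥(U ∩ V) n →₀ ℤ) :
    push (sub U) n (push (inl U V) n d) = push (sub (U ∩ V)) n d := by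
  rw [push_push]; rfl

theorem mvx_push_inr (U V : Set X) (n : ℕ) (d : Sing ↥(U ∩ V) n →₀ ℤ) :
    push (sub V) n (push (inr U V) n d) = push (sub (U ∩ V)) n d := by
  rw [push_push]; rfl

theorem mvx_common (U V : Set X) (n : ℕ) (a : Sing U n →₀ ℤ) (b : Sing V n →₀ ℤ)
    (h : push (sub U) n a = push (sub V) n b) :
    ∃ d : Sing ↥(U ∩ V) n →₀ ℤ, a = push (inl U V) n d ∧ b = push (inr U V) n d := by
  have h1 := mvx_support U n a
  have h2 := mvx_support V n b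
  rw [← h] at h2
  have h3 : push (sub U) n a ∈ Finsupp.supported ℤ ℤ {σ : Sing X n | Set.range σ ⊆ U ∩ V} := by
    rw [Finsupp.mem_supported] at h1 h2 ⊢
    intro σ hσ
    exact Set.subset_inter (h1 hσ) (h2 hσ)
  obtain ⟨d, hd⟩ := mvx_lift (U ∩ V) n _ h3
  refine ⟨d, ?_, ?_⟩
  · apply mvx_inj_sub U n
    rw [mvx_push_inl, hd]
  · apply mvx_inj_sub V n
    rw [mvx_push_inr, hd, h]

theorem mvx_small (U V : Set X) (n : ℕ) (z : Sing X n →₀ ℤ)
    (hz : z ∈ Finsupp.supported ℤ ℤ (Sc.smallSet {U, V} n)) :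
    ∃ (u : Sing U n →₀ ℤ) (v : Sing V n →₀ ℤ), z = push (sub U) n u + push (sub V) n v := by
  have := Sc.supported_map (Sc.smallSet {U, V} n) LinearMap.id
    (LinearMap.range (push (sub U) n) ⊔ LinearMap.range (push (sub V) n)) (by
      rintro σ ⟨C, hC, hσ⟩
      rcases hC with rfl | hC
      · apply Submodule.mem_sup_left
        exact mvx_lift _ n _ (Sc.single_mem_supported' hσ)
      · rw [Set.mem_singleton_iff] at hC
        subst hC
        apply Submodule.mem_sup_right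
        exact mvx_lift _ n _ (Sc.single_mem_supported' hσ)) z hz
  obtain ⟨_, ⟨u, rfl⟩, _, ⟨v, rfl⟩, h⟩ := Submodule.mem_sup.mp this
  exact ⟨u, v, h.symm⟩

theorem mvx_small' (U V : Set X) (n : ℕ) (u : Sing U n →₀ ℤ) (v : Sing V n →₀ ℤ) :
    push (sub U) n u + push (sub V) n v ∈ Finsupp.supported ℤ ℤ (Sc.smallSet {U, V} n) := by
  apply Submodule.add_mem
  · refine Finsupp.supported_mono ?_ (mvx_support U n u)
    intro σ hσ
    exact ⟨U, Or.inl rfl, hσ⟩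
  · refine Finsupp.supported_mono ?_ (mvx_support V n v)
    intro σ hσ
    exact ⟨V, Or.inr rfl, hσ⟩

theorem mvx_cyc_of_inl (U V : Set X) (n : ℕ) (d : Sing ↥(U ∩ V) n →₀ ℤ)
    (h : push (inl U V) n d ∈ Cyc U n) : d ∈ Cyc ↥(U ∩ V) n := by
  cases n with
  | zero => exact Submodule.mem_top
  | succ n =>
    change bdry _ n d = 0
    have h1 : bdry U n (push (inl U V) (n + 1) d) = 0 := h
    apply mvx_inj_sub (U ∩ V) n
    rw [map_zero, ← mvx_push_inl, ← bdry_push, h1, map_zero]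

theorem mv_zero (U V : Set X) (hUV : ∀ x, x ∈ U ∨ x ∈ V) (z : Sing X 0 →₀ ℤ) :
    ∃ (u : Sing U 0 →₀ ℤ) (v : Sing V 0 →₀ ℤ),
      z = push (sub U) 0 u + push (sub V) 0 v := by
  apply mvx_small U V 0 z
  rw [Finsupp.mem_supported]
  intro σ _
  have hs : ∀ x y : stdSimplex ℝ (Fin 1), x = y := fun x y => Subsingleton.elim _ _
  rcases hUV (σ (Sc.vert 0 0)) with h | h
  · refine ⟨U, Or.inl rfl, ?_⟩
    rintro _ ⟨x, rfl⟩
    rw [hs x (Sc.vert 0 0)]
    exact h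
  · refine ⟨V, Or.inr rfl, ?_⟩
    rintro _ ⟨x, rfl⟩
    rw [hs x (Sc.vert 0 0)]
    exact h

theorem mvx_open (U V : Set X) (hU : IsOpen U) (hV : IsOpen V) :
    ∀ C ∈ ({U, V} : Set (Set X)), IsOpen C := by
  rintro C (rfl | hC)
  · exact hU
  · rw [Set.mem_singleton_iff] at hC
    subst hC
    exact hV

theorem mvx_cov (U V : Set X) (hUV : ∀ x, x ∈ U ∨ x ∈ V) :
    ∀ x : X, ∃ C ∈ ({U, V} : Set (Set X)), x ∈ C := by
  intro x
  rcases hUV x with h | h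
  · exact ⟨U, Or.inl rfl, h⟩
  · exact ⟨V, Or.inr rfl, h⟩

theorem mv_split (U V : Set X) (hU : IsOpen U) (hV : IsOpen V) (hUV : ∀ x, x ∈ U ∨ x ∈ V)
    (n : ℕ) (z : Sing X (n + 1) →₀ ℤ) (hz : z ∈ Cyc X (n + 1)) :
    ∃ (u : Sing U (n + 1) →₀ ℤ) (v : Sing V (n + 1) →₀ ℤ) (d : Sing ↥(U ∩ V) n →₀ ℤ),
      d ∈ Cyc ↥(U ∩ V) n ∧
      z - (push (sub U) (n + 1) u + push (sub V) (n + 1) v) ∈ Bdy X (n + 1) ∧
      bdry U n u = push (inl U V) n d ∧ bdry V n v = - push (inr U V) n d := by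
  have hz0 : bdry X n z = 0 := hz
  have hz1 : Sc.sbd X n z = 0 := hz
  obtain ⟨u, v, huv⟩ := mvx_small U V (n + 1) _
    (Sc.rho_small {U, V} (mvx_open U V hU hV) (mvx_cov U V hUV) (n + 1) z)
  have h1 : bdry X n (Sc.rho {U, V} (n + 1) z) = 0 := by
    rw [bdry_eq, Sc.sbd_rho, hz1, map_zero]
  rw [huv, map_add, bdry_push, bdry_push] at h1
  have h2 : push (sub U) n (bdry U n u) = push (sub V) n (- bdry V n v) := by
    rw [map_neg]
    exact eq_neg_of_add_eq_zero_left h1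
  obtain ⟨d, hd1, hd2⟩ := mvx_common U V n _ _ h2
  refine ⟨u, v, d, ?_, ?_, hd1, ?_⟩
  · apply mvx_cyc_of_inl
    rw [← hd1]
    exact Bdy_le_Cyc n ⟨u, rfl⟩
  · rw [← huv, Sc.rho_succ, hz1, map_zero, sub_zero, sub_sub_cancel]
    exact ⟨_, rfl⟩
  · rw [← hd2, neg_neg]

theorem mv_inj (U V : Set X) (hU : IsOpen U) (hV : IsOpen V) (hUV : ∀ x, x ∈ U ∨ x ∈ V)
    (n : ℕ) (u : Sing U n →₀ ℤ) (v : Sing V n →₀ ℤ) (hu : u ∈ Cyc U n) (hv : v ∈ Cyc V n)
    (h : push (sub U) n u + push (sub V) n v ∈ Bdy X n) :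
    ∃ d ∈ Cyc ↥(U ∩ V) n, u - push (inl U V) n d ∈ Bdy U n ∧
      v + push (inr U V) n d ∈ Bdy V n := by
  obtain ⟨w, hw⟩ := h
  obtain ⟨w1, w2, hw12⟩ := mvx_small U V (n + 1) _
    (Sc.rho_small {U, V} (mvx_open U V hU hV) (mvx_cov U V hUV) (n + 1) w)
  have h1 : bdry X n (Sc.rho {U, V} (n + 1) w) = push (sub U) n u + push (sub V) n v := by
    rw [bdry_eq, Sc.sbd_rho, ← bdry_eq, hw]
    exact Sc.rho_id _ n _ (mvx_small' U V n u v)
  rw [hw12, map_add, bdry_push, bdry_push] at h1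
  have h2 : push (sub U) n (u - bdry U n w1) = push (sub V) n (bdry V n w2 - v) := by
    rw [map_sub, map_sub, sub_eq_sub_iff_add_eq_add, ← h1]
    exact add_comm _ _
  obtain ⟨d, hd1, hd2⟩ := mvx_common U V n _ _ h2
  refine ⟨d, ?_, ?_, ?_⟩
  · apply mvx_cyc_of_inl
    rw [← hd1]
    exact (Cyc U n).sub_mem hu (Bdy_le_Cyc n ⟨w1, rfl⟩)
  · rw [← hd1, sub_sub_cancel]
    exact ⟨w1, rfl⟩
  · rw [← hd2, add_sub_cancel]
    exact ⟨w2, rfl⟩

theorem mv_conn (U V : Set X) (hU : IsOpen U) (hV : IsOpen V) (hUV : ∀ x, x ∈ U ∨ x ∈ V)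
    (n : ℕ) (u : Sing U (n + 1) →₀ ℤ) (v : Sing V (n + 1) →₀ ℤ) (d : Sing ↥(U ∩ V) n →₀ ℤ)
    (hu : bdry U n u = push (inl U V) n d) (hv : bdry V n v = - push (inr U V) n d)
    (h : push (sub U) (n + 1) u + push (sub V) (n + 1) v ∈ Bdy X (n + 1)) :
    d ∈ Bdy ↥(U ∩ V) n := by
  obtain ⟨w, hw⟩ := h
  obtain ⟨w1, w2, hw12⟩ := mvx_small U V (n + 2) _
    (Sc.rho_small {U, V} (mvx_open U V hU hV) (mvx_cov U V hUV) (n + 2) w)
  have h1 : bdry X (n + 1) (Sc.rho {U, V} (n + 2) w) =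
      push (sub U) (n + 1) u + push (sub V) (n + 1) v := by
    rw [bdry_eq, Sc.sbd_rho, ← bdry_eq, hw]
    exact Sc.rho_id _ (n + 1) _ (mvx_small' U V (n + 1) u v)
  rw [hw12, map_add, bdry_push, bdry_push] at h1
  have h2 : push (sub U) (n + 1) (u - bdry U (n + 1) w1) =
      push (sub V) (n + 1) (bdry V (n + 1) w2 - v) := by
    rw [map_sub, map_sub, sub_eq_sub_iff_add_eq_add, ← h1]
    exact add_comm _ _
  obtain ⟨e, he1, _⟩ := mvx_common U V (n + 1) _ _ h2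
  refine ⟨e, ?_⟩
  apply mvx_inj_sub (U ∩ V) n
  rw [← mvx_push_inl, ← mvx_push_inl, ← bdry_push, ← he1, map_sub, bdry_bdry, sub_zero, hu]

end Pool.Agent.Helper534.HB
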