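import Pool.Agent.Helper534.HB.HE

/-! Inclusion maps for covers. -/

namespace Pool.Agent.Helper534.HB

universe u v w

variable {X : Type u} [TopologicalSpace X]

/-- the inclusion of a subspace -/
def sub (U : Set X) : C(U, X) := ⟨Subtype.val, continuous_subtype_val⟩

/-- the inclusion of the intersection in the first set -/
def inl (U V : Set X) : C(↥(U ∩ V), U) := inclusionMap Set.inter_subset_left

/-- the inclusion of the intersection in the second set -/
def inr (U V : Set X) : C(↥(U ∩ V), V) := inclusionMap Set.inter_subset_right

end Pool.Agent.Helper534.HB
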